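import Pool.Agent.Q287.LT.LT10

/-!
# MP_e9f8c5_pr, Q1: convergence of uniform Lipschitz functions on `d`-ary trees, all finite
boundary sets

Both (a) and (b) are true.
-/

set_option autoImplicit false

namespace Pool.Agent.Results.MP_e9f8c5_pr.Convergence

open Filter Topology MeasureTheory ProbabilityTheory

/-- The vertices of `𝕋_d^n`, the finite `d`-ary tree of depth `n`: words of length at most `n` over
the alphabet `Fin d`. The root is the empty word and the children of `v` are the words `v ++ [i]`;
the length of a word is its distance from the root, so that the leaves are the words of length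
exactly `n`. -/
abbrev Tree (d n : ℕ) : Type := {v : List (Fin d) // v.length ≤ n}

/-- `𝓛_{n,d}(S)`: the functions `f` on the vertices of `𝕋_d^n` with `|f v - f v'| ≤ 1` for every
edge `v v'` and with `f v ∈ S` for every leaf `v`. -/
def LipFun (d n : ℕ) (S : Set ℤ) : Set (Tree d n → ℤ) :=
  {f | (∀ v v' : Tree d n, (∃ i, v'.1 = v.1 ++ [i]) → |f v - f v'| ≤ 1) ∧
    ∀ v : Tree d n, v.1.length = n → f v ∈ S}

/-- `μ^S_{n,d}`: the uniform probability measure on `𝓛_{n,d}(S)`. -/
noncomputable def mu (d n : ℕ) (S : Finset ℤ) : Measure (Tree d n → ℤ) :=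
  uniformOn (LipFun d n (S : Set ℤ))

/-- The restriction of a function on `𝕋_d^n` to `𝕋_d^r` (it is the restriction when `r ≤ n`;
for `r > n`, which is irrelevant in the limit `n → ∞`, missing values are set to `0`). -/
def restr (d n r : ℕ) (f : Tree d n → ℤ) : Tree d r → ℤ :=
  fun v => if h : v.1.length ≤ n then f ⟨v.1, h⟩ else 0

/-- **(a)** For `d = 2` and every nonempty finite `S`, the measures `μ^S_{n,2}` converge as
`n → ∞`: for every `r`, the law of `f|_{𝕋^r}` converges to a probability measure `ν` (setwise,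
that is, for every set `A` of functions on `𝕋^r`).

**(b)** For every `d ≥ 2` and every nonempty finite `S`, the measures `μ^S_{2n+s,d}` converge as
`n → ∞`, for every fixed `s`; `s = 0` is convergence along even depths and `s = 1` along odd
depths. -/
theorem result :
    (∀ S : Finset ℤ, S.Nonempty → ∀ r : ℕ,
      ∃ ν : Measure (Tree 2 r → ℤ), IsProbabilityMeasure ν ∧
        ∀ A : Set (Tree 2 r → ℤ),
          Tendsto (fun n => (mu 2 n S).map (restr 2 n r) A) atTop (𝓝 (ν A))) ∧
    (∀ d : ℕ, 2 ≤ d → ∀ S : Finset ℤ, S.Nonempty → ∀ s r : ℕ,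
      ∃ ν : Measure (Tree d r → ℤ), IsProbabilityMeasure ν ∧
        ∀ A : Set (Tree d r → ℤ),
          Tendsto (fun n => (mu d (2 * n + s) S).map (restr d (2 * n + s) r) A) atTop (𝓝 (ν A))) :=
  ⟨fun S hS r => Pool.Agent.Q287.LT.full_laws S hS r,
    fun _ hd S hS s r => Pool.Agent.Q287.LT.parity_laws hd S hS s r⟩

end Pool.Agent.Results.MP_e9f8c5_pr.Convergence
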